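import Pool.Agent.N594.NT.Stm3
import Pool.Agent.N498.NT.P

/-!
# NT/Q: averages over injective random maps (project of helper594)

The proofs follow those of `Pool/Agent/N498/NT/P.lean`.
-/

set_option autoImplicit false

open Finset
open scoped Classical

namespace Pool.Agent.N7.NT.Q

open Pool.Agent.TH200.LP Pool.Agent.N594.NT Pool.Agent.N498.NT.P

/-- injectivity of a sequence with two more terms -/
lemma inj2 {V : Type} {d : ℕ} {x y : V} {z : Fin d → V} (hxy : x ≠ y) (hx : ∀ a, z a ≠ x)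
    (hy : ∀ a, z a ≠ y) (hz : Function.Injective z) :
    Function.Injective (Fin.cons x (Fin.cons y z : Fin (d + 1) → V) : Fin (d + 2) → V) := by
  rw [Fin.cons_injective_iff]
  refine ⟨?_, ?_⟩
  · rintro ⟨a, ha⟩
    revert ha
    refine Fin.cases ?_ (fun a => ?_) a
    · intro ha
      rw [Fin.cons_zero] at ha
      exact hxy ha.symm
    · intro ha
      rw [Fin.cons_succ] at ha
      exact hx a ha
  · rw [Fin.cons_injective_iff]
    refine ⟨?_, hz⟩
    rintro ⟨a, ha⟩
    exact hy a ha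

theorem main2 : S_Q2 := by
  intro d V _ _ H ι _ J x y hxy hJ
  obtain ⟨τ, hτ, hmem⟩ := exists_enum J hJ
  have hω : ∀ ω : ι → V, J.image ω = univ.image (fun a => ω (τ a)) := by
    intro ω
    ext v
    simp only [mem_image, mem_univ, true_and]
    constructor
    · rintro ⟨i, hi, rfl⟩
      obtain ⟨a, rfl⟩ := (hmem i).1 hi
      exact ⟨a, rfl⟩
    · rintro ⟨a, rfl⟩
      exact ⟨τ a, (hmem _).2 ⟨a, rfl⟩, rfl⟩
  have h1 := av_pull τ hτ (fun z : Fin d → V =>
    ind (Function.Injective (Fin.cons x (Fin.cons y z : Fin (d + 1) → V) : Fin (d + 2) → V) ∧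
      ¬ H (insert x (insert y (univ.image z)))))
  unfold mdg
  rw [← h1]
  refine av_mono fun ω => ind_mono ?_
  rintro ⟨⟨hi, hx, hy⟩, hH⟩
  rw [hω] at hH
  exact ⟨inj2 hxy (fun a => hx _) (fun a => hy _) (hi.comp hτ), hH⟩

theorem main1 : S_Q1 := by
  intro d V _ _ H ι _ J j x F hF hj hJ
  obtain ⟨τ, hτ, hmem⟩ := exists_enum (J.erase j) (d := d) (by rw [card_erase_of_mem hj, hJ]; rfl)
  have hω : ∀ ω : ι → V, J.image ω = insert (ω j) (univ.image (fun a => ω (τ a))) := by
    intro ω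
    ext v
    simp only [mem_image, mem_insert, mem_univ, true_and]
    constructor
    · rintro ⟨i, hi, rfl⟩
      by_cases hij : i = j
      · left; rw [hij]
      · right
        obtain ⟨a, rfl⟩ := (hmem i).1 (mem_erase.2 ⟨hij, hi⟩)
        exact ⟨a, rfl⟩
    · rintro (rfl | ⟨a, rfl⟩)
      · exact ⟨j, hj, rfl⟩
      · exact ⟨τ a, (mem_erase.1 ((hmem _).2 ⟨a, rfl⟩)).2, rfl⟩
  have hne : ∀ a, τ a ≠ j := fun a => (mem_erase.1 ((hmem (τ a)).2 ⟨a, rfl⟩)).1
  have hτ' : Function.Injective (Fin.cons j τ : Fin (d + 1) → ι) := by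
    rw [Fin.cons_injective_iff]
    refine ⟨?_, hτ⟩
    rintro ⟨a, ha⟩
    exact hne a ha
  have h1 := av_pull (V := V) (Fin.cons j τ : Fin (d + 1) → ι) hτ' (fun z : Fin (d + 1) → V =>
    F (z 0) * ind (Function.Injective (Fin.cons x (Fin.cons (z 0) (fun a : Fin d => z a.succ) :
        Fin (d + 1) → V) : Fin (d + 2) → V) ∧
      ¬ H (insert x (insert (z 0) (univ.image (fun a : Fin d => z a.succ))))))
  simp only [Fin.cons_zero, Fin.cons_succ] at h1
  have h2 : (av fun ω : ι → V => F (ω j) *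
      ind ((Function.Injective ω ∧ ∀ p, ω p ≠ x) ∧ ¬ H (insert x (J.image ω)))) ≤
      av fun ω : ι → V => F (ω j) * ind (Function.Injective (Fin.cons x (Fin.cons (ω j)
        (fun a : Fin d => ω (τ a)) : Fin (d + 1) → V) : Fin (d + 2) → V) ∧
      ¬ H (insert x (insert (ω j) (univ.image (fun a : Fin d => ω (τ a)))))) := by
    refine av_mono fun ω => mul_le_mul_of_nonneg_left (ind_mono ?_) (hF _)
    rintro ⟨⟨hi, hx⟩, hH⟩
    rw [hω] at hH
    exact ⟨inj2 (fun h => hx j h.symm) (fun a => hx _) (fun a h => hne a (hi h)) (hi.comp hτ), hH⟩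
  refine h2.trans (le_of_eq ?_)
  rw [h1, av_cons]
  simp only [Fin.cons_zero, Fin.cons_succ]
  congr 1
  funext y
  rw [av_mul_left]
  rfl

theorem main0 : S_Q0 := by
  intro d V _ _ H ι _ J i j F hF hi hj hij hJ
  have hj' : j ∈ J.erase i := mem_erase.2 ⟨hij.symm, hj⟩
  obtain ⟨τ, hτ, hmem⟩ := exists_enum ((J.erase i).erase j) (d := d)
    (by rw [card_erase_of_mem hj', card_erase_of_mem hi, hJ]; rfl)
  have hω : ∀ ω : ι → V, J.image ω =
      insert (ω i) (insert (ω j) (univ.image (fun a => ω (τ a)))) := by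
    intro ω
    ext v
    simp only [mem_image, mem_insert, mem_univ, true_and]
    constructor
    · rintro ⟨l, hl, rfl⟩
      by_cases hli : l = i
      · left; rw [hli]
      · by_cases hlj : l = j
        · right; left; rw [hlj]
        · right; right
          obtain ⟨a, rfl⟩ := (hmem l).1 (mem_erase.2 ⟨hlj, mem_erase.2 ⟨hli, hl⟩⟩)
          exact ⟨a, rfl⟩
    · rintro (rfl | rfl | ⟨a, rfl⟩)
      · exact ⟨i, hi, rfl⟩
      · exact ⟨j, hj, rfl⟩
      · exact ⟨τ a, (mem_erase.1 (mem_erase.1 ((hmem _).2 ⟨a, rfl⟩)).2).2, rfl⟩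
  have hnj : ∀ a, τ a ≠ j := fun a => (mem_erase.1 ((hmem (τ a)).2 ⟨a, rfl⟩)).1
  have hni : ∀ a, τ a ≠ i := fun a =>
    (mem_erase.1 (mem_erase.1 ((hmem (τ a)).2 ⟨a, rfl⟩)).2).1
  have hτ2 : Function.Injective (Fin.cons i (Fin.cons j τ : Fin (d + 1) → ι) : Fin (d + 2) → ι) :=
    inj2 hij hni hnj hτ
  have h1 := av_pull (V := V) (Fin.cons i (Fin.cons j τ : Fin (d + 1) → ι) : Fin (d + 2) → ι) hτ2
    (fun z : Fin (d + 2) → V => F (z 0) (z (Fin.succ 0)) *
      ind (Function.Injective (Fin.cons (z 0) (Fin.cons (z (Fin.succ 0))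
        (fun a : Fin d => z a.succ.succ) : Fin (d + 1) → V) : Fin (d + 2) → V) ∧
        ¬ H (insert (z 0) (insert (z (Fin.succ 0))
          (univ.image (fun a : Fin d => z a.succ.succ))))))
  simp only [Fin.cons_zero, Fin.cons_succ] at h1
  have h2 : (av fun ω : ι → V => F (ω i) (ω j) * ind (Function.Injective ω ∧ ¬ H (J.image ω))) ≤
      av fun ω : ι → V => F (ω i) (ω j) * ind (Function.Injective (Fin.cons (ω i) (Fin.cons (ω j)
        (fun a : Fin d => ω (τ a)) : Fin (d + 1) → V) : Fin (d + 2) → V) ∧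
      ¬ H (insert (ω i) (insert (ω j) (univ.image (fun a : Fin d => ω (τ a)))))) := by
    refine av_mono fun ω => mul_le_mul_of_nonneg_left (ind_mono ?_) (hF _ _)
    rintro ⟨hi, hH⟩
    rw [hω] at hH
    exact ⟨inj2 (fun h => hij (hi h)) (fun a h => hni a (hi h)) (fun a h => hnj a (hi h))
      (hi.comp hτ), hH⟩
  refine h2.trans (le_of_eq ?_)
  rw [h1, av_cons]
  congr 1
  funext x
  rw [av_cons]
  simp only [Fin.cons_zero, Fin.cons_succ]
  congr 1
  funext y
  rw [av_mul_left]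
  rfl

end Pool.Agent.N7.NT.Q
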